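import Pool.Agent.Lib.MP_b5021c_nt.IfaceK2

/-!
# MP_b5021c_nt, row THK (helper18): the structure theorem from its rows
-/

namespace Pool.Agent.MP_b5021c_nt.H18

open Polynomial Filter Topology Pool.Agent.B5

theorem psk_succ (k : ℕ) : PSk (k + 1) = derivedSet (PSk k) :=
  Function.iterate_succ_apply' _ _ _

theorem psk_sub (hS : SalS) : ∀ k, PSk k ⊆ PS
  | 0 => fun _ h => h
  | k + 1 => by
    rw [psk_succ]
    exact (derivedSet_mono _ _ (psk_sub hS k)).trans hS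

theorem pv_rev (p : ℤ[X]) (t : ℝ) (ht : t ≠ 0) (h : pv p ((t : ℂ)⁻¹) ≠ 0) : pv p.reverse (t : ℂ) ≠ 0 := by
  intro h2
  apply h
  have ht' : (t : ℂ)⁻¹ ≠ 0 := inv_ne_zero (by exact_mod_cast ht)
  have : Invertible ((t : ℂ)⁻¹) := invertibleOfNonzero ht'
  have h3 := Polynomial.eval₂_reverse_mul_pow (algebraMap ℤ ℂ) ((t : ℂ)⁻¹) p
  rw [invOf_eq_inv, inv_inv] at h3
  have h4 : eval₂ (algebraMap ℤ ℂ) (t : ℂ) p.reverse = 0 := h2
  rw [h4, zero_mul] at h3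
  exact h3.symm

theorem seq (hR : RecS) (S : Set ℝ) (hS : S ⊆ PS) (θ : ℝ) (hθ : θ ∈ derivedSet S) :
    ∃ t : ℕ → ℝ, Tendsto t atTop (𝓝 θ) ∧ ∀ n, t n ∈ S ∧ t n ≠ θ ∧
      pv (minpoly ℤ (t n)) (((t n : ℝ) : ℂ)⁻¹) ≠ 0 := by
  have h1 : ∃ᶠ y in 𝓝 θ, y ≠ θ ∧ y ∈ S := accPt_iff_frequently.mp hθ
  have h2 : ∀ᶠ y in 𝓝 θ, y ≤ θ + 1 := by
    filter_upwards [Iio_mem_nhds (lt_add_one θ)] with y hy using le_of_lt hy
  have hF := (hR (θ + 1)).subset (Set.sdiff_subset (t := {θ}))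
  have h3 : ∀ᶠ y in 𝓝 θ, y ∉ ({θ' : ℝ | θ' ∈ PS ∧ θ' ≤ θ + 1 ∧
      pv (minpoly ℤ θ') ((θ' : ℂ)⁻¹) = 0} \ {θ}) := by
    apply (hF.isClosed.isOpen_compl).mem_nhds
    simp
  obtain ⟨t, ht, h4⟩ := exists_seq_forall_of_frequently (h1.and_eventually (h2.and h3))
  refine ⟨t, ht, fun n => ⟨(h4 n).1.2, (h4 n).1.1, fun h5 => ?_⟩⟩
  exact (h4 n).2.2 ⟨⟨hS (h4 n).1.2, (h4 n).2.1, h5⟩, (h4 n).1.1⟩

/-- THK. -/
theorem thk (hStp : StpS) (hBas : BasS) (hSal : SalS) (hRec : RecS) (hQps : QpsS) (hTra : TraS) :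
    ThkS := by
  intro k
  induction k with
  | zero =>
    intro θ hθ h0
    obtain ⟨D, hD⟩ := hBas θ hθ (h0 rfl)
    exact hTra (Option Empty) (Fin 1)
      (Fintype.equivOfCardEq (by simp)) D θ hD
  | succ k ih =>
    intro θ hθ _
    have hθS : θ ∈ PS := psk_sub hSal (k + 1) hθ
    rw [psk_succ] at hθ
    obtain ⟨t, ht, h1⟩ := seq hRec (PSk k) (psk_sub hSal k) θ hθ
    have h2 : ∀ n, ∃ D : Finset (Fin (k + 1)) → ℤ[X], Good D (t n) := fun n =>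
      ih (t n) (h1 n).1 (fun _ => (h1 n).2.2)
    choose D hD using h2
    have h3 : ∀ n, pv (D n ∅) (t n) ≠ 0 := by
      intro n
      rw [(hQps (t n) (D n ∅) (hD n).one).2]
      refine pv_rev _ _ ?_ (h1 n).2.2
      have : (1 : ℝ) < t n := (hD n).one.1
      linarith
    obtain ⟨D', hD'⟩ := hStp (Fin (k + 1)) D t θ hθS ht (fun n => (h1 n).2.1) hD h3
    exact hTra (Option (Fin (k + 1))) (Fin (k + 1 + 1))
      (Fintype.equivOfCardEq (by simp)) D' θ hD'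

end Pool.Agent.MP_b5021c_nt.H18
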